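import Pool.Agent.H8.MultRec

set_option autoImplicit false

namespace Pool.Agent.Results.MP_a8995d_an.MultiplyRecurrent

/-- complex l^2(N) -/
noncomputable abbrev L2 : Type := lp (fun _ : ℕ => ℂ) 2

/-- T is the backward shift with weights w -/
def IsShift (w : ℕ → ℝ) (T : L2 →L[ℂ] L2) : Prop :=
  ∀ (x : L2) (n : ℕ), T x n = w (n + 1) * x (n + 1)

/-- topological multiple recurrence of a self-map -/
def MultRec {X : Type} [TopologicalSpace X] (S : X → X) : Prop :=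
  ∀ U : Set X, IsOpen U → U.Nonempty → ∀ N : ℕ, ∃ k : ℕ, 1 ≤ k ∧
    (⋂ j ∈ Set.Iic N, S^[j * k] ⁻¹' U).Nonempty

theorem result (w : ℕ → ℝ) (hw : ∀ n, 1 ≤ n → 0 < w n) (T : L2 →L[ℂ] L2) (hT : IsShift w T) :
    MultRec (fun x : L2 => x + T x) := by
  intro U hU hne N
  obtain ⟨k, hk, x, hx⟩ := Pool.Agent.H8.MultRec.main hw hT U hU hne N
  refine ⟨k, hk, x, Set.mem_iInter₂.2 fun j hj => ?_⟩
  have := hx j hj
  rw [ContinuousLinearMap.coe_pow'] at this
  exact this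

end Pool.Agent.Results.MP_a8995d_an.MultiplyRecurrent
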